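import Pool.Agent.MP_0c16b3_nt.N.Spec

/-! Averaging over the windows, natural density. -/

namespace Pool.Agent.MP_0c16b3_nt.N

open Finset Pool.Agent.MP_0c16b3_nt.L

namespace Avg2

/-- the number of points of `A` in one window -/
def a (D : ℕ) (A : Finset ℕ) (c n : ℕ) : ℕ := #{s ∈ range D | s < c ∧ c * n + s ∈ A}

theorem a_le (D : ℕ) (A : Finset ℕ) (c n : ℕ) : a D A c n ≤ c :=
  (card_le_card fun s hs => mem_range.2 (mem_filter.1 hs).2.1).trans (card_range c).le

theorem shp_card (E H D n : ℕ) (A : Finset ℕ) :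
    #(shp E H D n A) = ∑ e ∈ Ico E (E + H), a D A (D / e) n := by
  simp only [shp, a, card_filter, sum_product]

theorem mid (D c P : ℕ) (A : Finset ℕ) (hc : 0 < c) (hD : c ≤ D) :
    #{k ∈ A | k < c * P} ≤ ∑ n ∈ range P, a D A c n := by
  have hm : ∀ k ∈ A.filter (fun k => k < c * P), k / c ∈ range P := fun k hk =>
    mem_range.2 (Nat.div_lt_of_lt_mul (mem_filter.1 hk).2)
  rw [card_eq_sum_card_fiberwise hm]
  refine sum_le_sum fun n _ => ?_
  refine card_le_card_of_injOn (fun k => k % c) (fun k hk => ?_) fun k hk k' hk' e => ?_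
  · obtain ⟨h1, h2⟩ := mem_filter.1 (mem_coe.1 hk)
    have := Nat.mod_lt k hc
    refine mem_coe.2 (mem_filter.2 ⟨mem_range.2 (this.trans_le hD), this, ?_⟩)
    rw [← h2, Nat.div_add_mod]
    exact (mem_filter.1 h1).1
  · have e' : k % c = k' % c := e
    rw [← Nat.div_add_mod k c, ← Nat.div_add_mod k' c, e', (mem_filter.1 (mem_coe.1 hk)).2,
      (mem_filter.1 (mem_coe.1 hk')).2]

theorem rest (h K x : ℕ) (A : Finset ℕ) (h0 : 0 < h) (hA : A ⊆ range K)
    (hx : h * K ≤ (h + 1) * x) : (#A : ℝ) - (K : ℝ) / h ≤ #{k ∈ A | k < x} := by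
  have h1 := card_filter_add_card_filter_not (s := A) (fun k => k < x)
  have h2 : #{k ∈ A | ¬ k < x} ≤ K - x := by
    rw [← Nat.card_Ico]
    exact card_le_card fun k hk =>
      mem_Ico.2 ⟨not_lt.1 (mem_filter.1 hk).2, mem_range.1 (hA (mem_filter.1 hk).1)⟩
  have h3 : (K - x) * h ≤ K := by
    rcases le_total x K with h4 | h4
    · obtain ⟨y, rfl⟩ := Nat.exists_eq_add_of_le h4
      rw [Nat.add_sub_cancel_left]
      nlinarith
    · rw [Nat.sub_eq_zero_of_le h4]
      omega
  have h4 : (#{k ∈ A | ¬ k < x} : ℝ) ≤ (K : ℝ) / h := by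
    rw [le_div_iff₀ (by exact_mod_cast h0)]
    exact_mod_cast (Nat.mul_le_mul_right h h2).trans h3
  have h5 : (#{k ∈ A | k < x} : ℝ) + #{k ∈ A | ¬ k < x} = #A := by exact_mod_cast h1
  linarith

end Avg2

open Avg2 in
theorem avg2 : Avg2S := by
  intro h H D K τ A h0 H0 D0 hdiv hA
  have hP := Nat.lt_mul_div_succ (K * (h * H)) D0
  generalize K * (h * H) / D + 1 = P at hP ⊢
  have E0 : 0 < h * H := Nat.mul_pos h0 H0
  have hr : (0 : ℝ) < h := by exact_mod_cast h0
  have Hr : (0 : ℝ) < H := by exact_mod_cast H0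
  have hw : ∀ n, (#(shp (h * H) H D n A) : ℝ) ≤ (D : ℝ) / h := fun n => by
    rw [le_div_iff₀ hr]
    have h1 : #(shp (h * H) H D n A) ≤ H * (D / (h * H)) := by
      rw [shp_card]
      refine (sum_le_card_nsmul _ _ (D / (h * H)) fun e he => ?_).trans ?_
      · exact (a_le _ _ _ _).trans (Nat.div_le_div_left (mem_Ico.1 he).1 E0)
      · rw [Nat.card_Ico, Nat.add_sub_cancel_left, smul_eq_mul]
    have h2 := Nat.mul_div_le D (h * H)
    have h3 : #(shp (h * H) H D n A) * h ≤ D := by nlinarith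
    exact_mod_cast h3
  have low : (H : ℝ) * (#A - (K : ℝ) / h) ≤ ∑ n ∈ range P, (#(shp (h * H) H D n A) : ℝ) := by
    simp only [shp_card]
    push_cast
    rw [sum_comm]
    refine le_trans (le_of_eq ?_) (card_nsmul_le_sum _ _ ((#A : ℝ) - (K : ℝ) / h) fun e he => ?_)
    · rw [Nat.card_Ico, Nat.add_sub_cancel_left, nsmul_eq_mul]
    · obtain ⟨e1, e2⟩ := mem_Ico.1 he
      have hd := hdiv e (by omega) e2.le
      have c0 : 0 < D / e := Nat.div_pos (Nat.le_of_dvd D0 hd) (by omega)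
      have c1 : D / e * e = D := Nat.div_mul_cancel hd
      have h1 : h * K ≤ (h + 1) * (D / e * P) := by
        refine Nat.le_of_mul_le_mul_right ?_ H0
        have h2 : D / e * P * e ≤ D / e * P * (h * H + H) := Nat.mul_le_mul_left _ e2.le
        have h3 : D / e * P * e = D * P := by rw [mul_right_comm, c1]
        nlinarith
      refine (rest h K _ A h0 hA h1).trans ?_
      exact_mod_cast mid D (D / e) P A c0 (Nat.div_le_self _ _)
  refine low.trans ?_
  have up : ∀ n ∈ range P, (#(shp (h * H) H D n A) : ℝ) ≤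
      τ + if τ < #(shp (h * H) H D n A) then (D : ℝ) / h else 0 := fun n _ => by
    split_ifs with c
    · have := hw n
      have t0 : (0 : ℝ) ≤ τ := Nat.cast_nonneg _
      linarith
    · rw [add_zero]
      exact_mod_cast not_lt.1 c
  refine (sum_le_sum up).trans (le_of_eq ?_)
  rw [sum_add_distrib, ← sum_filter, sum_const, sum_const, card_range, nsmul_eq_mul, nsmul_eq_mul]

end Pool.Agent.MP_0c16b3_nt.N
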