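import Pool.Agent.MP_0c16b3_nt.N.Spec

/-! The integer certificate for natural density. -/

namespace Pool.Agent.MP_0c16b3_nt.N

open Finset Filter Pool.Agent.MP_0c16b3_nt.L

namespace Cert

theorem small (a b c d : ℝ) (ha : 1 ≤ a) (hb : 0 ≤ b) (hd : 0 < d) : ∃ K0 : ℕ, ∀ K : ℕ, K0 ≤ K →
    b * Real.log (K * a) + c ≤ K / d := by
  have h2 := (Real.isLittleO_log_id_atTop.bound (c := 1 / (2 * d * (b + 1))) (by positivity))
  have h3 := tendsto_natCast_atTop_atTop.eventually (h2.and ((eventually_ge_atTop (1 : ℝ)).and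
    (eventually_ge_atTop (2 * d * (b * Real.log a + c)))))
  obtain ⟨K0, hK0⟩ := eventually_atTop.1 h3
  refine ⟨K0, fun K hK => ?_⟩
  obtain ⟨k1, k2, k3⟩ := hK0 K hK
  have k0 : 0 ≤ Real.log K := Real.log_nonneg k2
  simp only [Real.norm_eq_abs, id] at k1
  rw [abs_of_nonneg k0, abs_of_nonneg (by positivity : (0 : ℝ) ≤ K), one_div, inv_mul_eq_div,
    le_div_iff₀ (by positivity)] at k1
  rw [Real.log_mul (by positivity) (by positivity), le_div_iff₀ hd]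
  nlinarith [mul_nonneg k0 hd.le]

theorem close (hR : RelS) (hI : IntS) (M D K : ℕ) (A : Finset ℕ) (n : Fin (M + 1) → ℕ)
    (ν : Fin (M + 1) → ℕ → ℕ → ℤ) (lam : Fin (M + 1) → ℤ) (hD0 : 0 < D)
    (hdv : ∀ e, 1 ≤ e → e ≤ M → e ∣ D) (hn1 : ∀ j, 1 ≤ n j) (hnK : ∀ j, D * (n j + 1) ≤ K)
    (hν1 : ∀ j e s, ν j e s ≠ 0 → D / e * n j + s ∈ A)
    (hν2 : ∀ j e, ∑ s ∈ range (D / e), ν j e s = 0)
    (hν3 : ∀ j t, 0 < t → t < D →
      ∑ e ∈ (Icc 1 M).filter (· ∣ t), (e : ℤ) * tail D (ν j) e (t / e) = 0)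
    (hlz : ∀ e, 1 ≤ e → e ≤ M → ∑ j, (lam j : ℚ) * nf ℚ D (n j) (tail D (ν j)) e = 0)
    (hX : ∑ j, (lam j : ℚ) * yf ℚ M D (n j) (tail D (ν j)) ≠ 0) : ∃ z : ℤ, z ≠ 0 ∧
    ∀ (F : Type) [Field F] (φ q : ℕ → F) (W r : F), (∀ i : ℕ, 0 < i → i ≤ K → (i : F) ≠ 0) →
      (∀ a b : ℕ, 0 < a → 0 < b → a * b ≤ K → q (a * b) = q a + q b) →
      (∀ k : ℕ, k + 1 ≤ K →
        ((k + 1 : ℕ) : F) * (φ (k + 1) - φ k) = W + hz F (k + 1) - q (k + 1)) →
      (∀ k ∈ A, φ k = r) → (z : F) = 0 := by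
  choose Ni Yi hint using fun j => hI K M D (n j) (tail D (ν j)) (hnK j)
  have hQ : ∀ i : ℕ, 0 < i → i ≤ K → (i : ℚ) ≠ 0 := fun i h0 _ => by exact_mod_cast h0.ne'
  have hfac : (K.factorial : ℚ) ≠ 0 := by exact_mod_cast K.factorial_ne_zero
  have hNz : ∀ e, 1 ≤ e → e ≤ M → ∑ j, lam j * Ni j e = 0 := by
    intro e h1 h2
    have h3 : ((∑ j, lam j * Ni j e : ℤ) : ℚ) =
        K.factorial * ∑ j, (lam j : ℚ) * nf ℚ D (n j) (tail D (ν j)) e := by
      push_cast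
      rw [mul_sum]
      refine sum_congr rfl (fun j _ => ?_)
      rw [(hint j ℚ hQ).1 e]
      ring
    rw [hlz e h1 h2, mul_zero] at h3
    exact_mod_cast h3
  refine ⟨∑ j, lam j * Yi j, ?_, ?_⟩
  · intro h
    have h3 : ((∑ j, lam j * Yi j : ℤ) : ℚ) =
        (K.factorial : ℚ) ^ 2 * ∑ j, (lam j : ℚ) * yf ℚ M D (n j) (tail D (ν j)) := by
      push_cast
      rw [mul_sum]
      refine sum_congr rfl (fun j _ => ?_)
      rw [(hint j ℚ hQ).2]
      ring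
    rw [h] at h3
    exact mul_ne_zero (pow_ne_zero 2 hfac) hX (by simpa using h3.symm)
  · intro F _ φ q W r hF hq hrec hφ
    have hrel : ∀ j, ∑ e ∈ Icc 1 M, nf F D (n j) (tail D (ν j)) e * q e +
        yf F M D (n j) (tail D (ν j)) = 0 := fun j =>
      hR F K M D (n j) φ q W r (ν j) hdv hD0 (hn1 j) (hnK j) hF hq
        hrec (fun e s h => hφ _ (hν1 j e s h)) (hν2 j) (hν3 j)
    have h1 : ∀ j, ((Yi j : ℤ) : F) =
        -(K.factorial : F) * ∑ e ∈ Icc 1 M, (Ni j e : F) * q e := by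
      intro j
      rw [(hint j F hF).2, eq_neg_of_add_eq_zero_right (hrel j), mul_neg, mul_sum, neg_mul, mul_sum]
      congr 1
      refine sum_congr rfl (fun e _ => ?_)
      rw [(hint j F hF).1 e]
      ring
    have h2 : ((∑ j, lam j * Yi j : ℤ) : F) =
        -(K.factorial : F) * ∑ e ∈ Icc 1 M, ((∑ j, lam j * Ni j e : ℤ) : F) * q e := by
      push_cast
      simp only [h1, mul_sum, sum_mul]
      rw [sum_comm]
      refine sum_congr rfl (fun e _ => sum_congr rfl (fun j _ => ?_))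
      ring
    rw [h2, sum_eq_zero, mul_zero]
    intro e he
    rw [hNz e (mem_Icc.1 he).1 (mem_Icc.1 he).2]
    simp

end Cert

theorem cert2 (hE : ErdS) (hL : Lin2S) (hR : RelS) (hI : IntS) (hS : SiegS) (hN : Nonv2S)
    (hSel : SelS) (hA : Avg2S) : Cert2S := by
  intro ε hε
  obtain ⟨h, hh⟩ := exists_nat_gt (4 / ε)
  have hh0 : (0 : ℝ) < h := lt_trans (by positivity) hh
  have hh1 : 0 < h := by exact_mod_cast hh0
  obtain ⟨H, D, hH0, hD0, hdv, hcov⟩ := hE (ε / (8 * h)) h (by positivity) hh1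
  obtain ⟨E, hEdef⟩ : ∃ E : ℕ, E = h * H := ⟨_, rfl⟩
  have hE0 : 0 < E := hEdef ▸ Nat.mul_pos hh1 hH0
  obtain ⟨B, hB⟩ := hL E H D hE0 hH0
  rw [← hEdef] at hdv hcov
  obtain ⟨C, hC⟩ := hS (E + H) D B (by omega) hdv
  obtain ⟨g, hg⟩ := exists_nat_gt (4 * (1 + ((E + H : ℕ) : ℝ) * (D : ℝ) ^ 2) / ε)
  have hg0 : (0 : ℝ) < g := lt_trans (by positivity) hg
  have hg1 : 0 < g := by exact_mod_cast hg0
  obtain ⟨C', L1, hnv⟩ := hN (E + H) D B C (2 * g) hD0 hdv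
  have hD1 : (0 : ℝ) < D := by exact_mod_cast hD0
  have hH1 : (0 : ℝ) < H := by exact_mod_cast hH0
  have hE1 : (1 : ℝ) ≤ E := by exact_mod_cast hE0
  obtain ⟨K1, hK1⟩ := Cert.small (E + 2) C' (L1 + 3) (D * g) (by linarith) (by positivity)
    (by positivity)
  refine ⟨K1 + D + 2, fun K hK => ?_⟩
  obtain ⟨N, hNdef⟩ : ∃ N : ℕ, N = K * E / D := ⟨_, rfl⟩
  obtain ⟨L, hLdef⟩ : ∃ L : ℕ, L = N / g := ⟨_, rfl⟩
  refine ⟨K + D * (N + 1), by omega, fun A hAK hcard => ?_⟩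
  have hK0 : (0 : ℝ) < K := by exact_mod_cast (by omega : 0 < K)
  have hDK : (D : ℝ) ≤ K := by exact_mod_cast (by omega : D ≤ K)
  have hN1 : (N : ℝ) * D ≤ K * E := by
    rw [hNdef]; exact_mod_cast Nat.div_mul_le_self (K * E) D
  have hN2 : (K : ℝ) * E < D * (N + 1) := by
    rw [hNdef]; exact_mod_cast Nat.lt_mul_div_succ (K * E) hD0
  have hL1 : (L : ℝ) * g ≤ N := by
    rw [hLdef]; exact_mod_cast Nat.div_mul_le_self N g
  have hL2n : N < g * (L + 1) := hLdef ▸ Nat.lt_mul_div_succ N hg1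
  have hL2 : (N : ℝ) < g * (L + 1) := by exact_mod_cast hL2n
  have hg2 : (1 : ℝ) ≤ g := by exact_mod_cast hg1
  have hL3 : (K : ℝ) / (D * g) ≤ L + 2 := by
    rw [div_le_iff₀ (by positivity)]
    have a1 : (D : ℝ) * (N + 1) ≤ D * (g * (L + 2)) :=
      mul_le_mul_of_nonneg_left (by nlinarith) hD1.le
    nlinarith
  have hs := (hK1 K (by omega)).trans hL3
  have hlog : Real.log ((K + D * (N + 1) : ℕ) : ℝ) ≤ Real.log (K * (E + 2)) := by
    refine Real.log_le_log (by exact_mod_cast (by omega : 0 < K + D * (N + 1))) ?_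
    push_cast
    nlinarith
  have hlog0 : 0 ≤ Real.log (K * (E + 2)) := by
    refine Real.log_nonneg ?_
    have : (1 : ℝ) ≤ K := by exact_mod_cast (by omega : 1 ≤ K)
    nlinarith
  have hC0 : (0 : ℝ) ≤ C' := Nat.cast_nonneg _
  have hLL : L1 + 1 ≤ L := by
    have : (L1 : ℝ) + 1 ≤ L := by nlinarith [mul_nonneg hC0 hlog0]
    exact_mod_cast this
  have hLlog : (C' : ℝ) * Real.log ((K + D * (N + 1) : ℕ) : ℝ) ≤ L := by
    have := mul_le_mul_of_nonneg_left hlog hC0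
    have : (0 : ℝ) ≤ L1 := Nat.cast_nonneg _
    linarith
  have hav := hA h H D K (H + (cov E H D).card) A hh1 hH0 hD0 (hEdef ▸ hdv) hAK
  rw [← hEdef, ← hNdef] at hav
  obtain ⟨G, hG⟩ : ∃ G : Finset ℕ, G = (range (N + 1)).filter
      (fun n => H + (cov E H D).card < (shp E H D n A).card) := ⟨_, rfl⟩
  rw [← hG] at hav
  have hEr : (E : ℝ) = h * H := by rw [hEdef]; push_cast; ring
  have hGc : ε * N / 2 < G.card := by
    push_cast at hav
    have a1 : ((N : ℝ) + 1) * D ≤ 2 * (K * E) := by nlinarith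
    have a2 : ((N : ℝ) + 1) * (H + (cov E H D).card) ≤ ε * K * H / 4 := by
      refine (mul_le_mul_of_nonneg_left hcov (by positivity)).trans ?_
      have : ((N : ℝ) + 1) * (ε / (8 * h) * D) = ε / (8 * h) * ((N + 1) * D) := by ring
      rw [this]
      refine (mul_le_mul_of_nonneg_left a1 (by positivity)).trans (le_of_eq ?_)
      rw [hEr]
      field_simp
      ring
    have a3 : (K : ℝ) / h ≤ ε * K / 4 := by
      rw [div_lt_iff₀ hε] at hh
      rw [div_le_iff₀ hh0]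
      nlinarith
    have a4 : ε * K * H / 2 < G.card * ((D : ℝ) / h) := by nlinarith
    rw [← mul_div_assoc, lt_div_iff₀ hh0] at a4
    apply lt_of_mul_lt_mul_right _ hD1.le
    have a5 : ε * (N * D) ≤ ε * (K * E) := mul_le_mul_of_nonneg_left hN1 hε.le
    rw [hEr] at a5
    nlinarith
  have hsel : 2 * L + (E + H) * (D ^ 2 * (2 * L)) < G.card := by
    have a1 : (2 * L + ((E + H : ℕ) : ℝ) * ((D : ℝ) ^ 2 * (2 * L)) : ℝ) ≤ ε * N / 2 := by
      rw [div_lt_iff₀ hε] at hg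
      have b1 : (0 : ℝ) ≤ L := Nat.cast_nonneg _
      have b2 := mul_le_mul_of_nonneg_left hg.le b1
      have b3 := mul_le_mul_of_nonneg_left hL1 hε.le
      nlinarith
    exact_mod_cast a1.trans_lt hGc
  obtain ⟨n, hn, hsep⟩ := hSel (E + H) D L G hsel
  have hnG : ∀ j, n j ≤ N ∧ H + (cov E H D).card < (shp E H D (n j) A).card := by
    intro j
    have := (hn j).1
    rw [hG, mem_filter, mem_range] at this
    exact ⟨by omega, this.2⟩
  have hnK : ∀ j, D * (n j + 1) ≤ K + D * (N + 1) := fun j =>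
    (Nat.mul_le_mul_left D (by have := (hnG j).1; omega)).trans (Nat.le_add_left _ _)
  have hsh : ∀ j, ∀ x ∈ shp E H D (n j) A, E ≤ x.1 ∧ x.1 < E + H ∧ x.2 < D / x.1 := by
    intro j x hx
    simp only [shp, mem_filter, mem_product, mem_Ico] at hx
    exact ⟨hx.1.1.1, hx.1.1.2, hx.2.1⟩
  choose ν hν1 hν2 hν3 hν4 hν5 using fun j => hB _ (hsh j) (hnG j).2
  obtain ⟨lam, hl0, hlb, hlz⟩ := hC (K + D * (N + 1)) n (fun j => tail D (ν j)) (by omega) hnK hν4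
  have hX := hnv (K + D * (N + 1)) L n (fun j => tail D (ν j)) lam (by omega) hnK (by omega) hLlog
    (fun j => ⟨(hn j).2, by have := (hnG j).1; nlinarith⟩) hsep hν4 hν5 hl0 hlb
  refine Cert.close hR hI (E + H) D _ A n ν lam hD0 hdv
    (fun j => by have := (hn j).2; omega) hnK (fun j e s hne => ?_) hν2 hν3 hlz hX
  have h1 : (e, s) ∈ shp E H D (n j) A := by
    by_contra h2
    exact hne (hν1 j e s h2)
  exact (mem_filter.1 h1).2.2

end Pool.Agent.MP_0c16b3_nt.N
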