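import Pool.Agent.MP_0c16b3_nt.N.Spec

/-! Few integers have a divisor in a window `[h H, h H + H)`. -/

namespace Pool.Agent.MP_0c16b3_nt.N

open Finset Pool.Agent.MP_0c16b3_nt.L

namespace Erd

theorem quo {d D : ℕ} (_hd : 0 < d) (hD : d ∣ D) (p : ℕ → Prop) [DecidablePred p] :
    ((range D).filter (fun t => d ∣ t ∧ p (t / d))).card ≤ ((Ico 0 (0 + D / d)).filter p).card := by
  refine card_le_card_of_injOn (fun t => t / d) (fun t ht => ?_) (fun a ha b hb hab => ?_)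
  · have ht' := mem_filter.1 (mem_coe.1 ht)
    refine mem_coe.2 (mem_filter.2 ⟨mem_Ico.2 ⟨Nat.zero_le _, ?_⟩, ht'.2.2⟩)
    rw [zero_add]
    exact Nat.div_lt_div_of_lt_of_dvd hD (mem_range.1 ht'.1)
  · have ha' := (mem_filter.1 (mem_coe.1 ha)).2.1
    have hb' := (mem_filter.1 (mem_coe.1 hb)).2.1
    have hab' : a / d = b / d := hab
    rw [← Nat.mul_div_cancel' ha', ← Nat.mul_div_cancel' hb', hab']

theorem mult {d D : ℕ} (hd : 0 < d) (hD : d ∣ D) :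
    ((range D).filter (fun t => d ∣ t ∧ True)).card ≤ D / d := by
  refine (quo hd hD (fun _ => True)).trans ?_
  simp

theorem om_add {P : Finset ℕ} {e m : ℕ} (h : ∀ q ∈ P, ¬ q ^ 2 ∣ e * m) :
    om P e + om P m ≤ om P (e * m) := by
  unfold om
  rw [← card_union_of_disjoint]
  · refine card_le_card (fun q hq => ?_)
    rcases mem_union.1 hq with hq | hq
    · exact mem_filter.2 ⟨(mem_filter.1 hq).1, Dvd.dvd.mul_right (mem_filter.1 hq).2 m⟩
    · exact mem_filter.2 ⟨(mem_filter.1 hq).1, Dvd.dvd.mul_left (mem_filter.1 hq).2 e⟩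
  · refine disjoint_left.2 (fun q h1 h2 => h q (mem_filter.1 h1).1 ?_)
    rw [pow_two]
    exact mul_dvd_mul (mem_filter.1 h1).2 (mem_filter.1 h2).2

theorem mu_le {P : Finset ℕ} (hP : ∀ q ∈ P, q.Prime) :
    ∑ q ∈ P, ((q : ℝ))⁻¹ ≤ ((∏ q ∈ P, q : ℕ) : ℝ) := by
  have hQ : 0 < ∏ q ∈ P, q := prod_pos (fun q hq => (hP q hq).pos)
  have h1 : ∑ q ∈ P, ((q : ℝ))⁻¹ ≤ P.card := by
    have := sum_le_card_nsmul P (fun q => ((q : ℝ))⁻¹) 1 (fun q hq =>
      inv_le_one_of_one_le₀ (by exact_mod_cast (hP q hq).one_le))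
    simpa using this
  have h2 : P.card ≤ ∏ q ∈ P, q := by
    have : P ⊆ Icc 1 (∏ q ∈ P, q) := fun q hq =>
      mem_Icc.2 ⟨(hP q hq).one_le, Nat.le_of_dvd hQ (dvd_prod_of_mem (fun q => q) hq)⟩
    simpa using card_le_card this
  exact h1.trans (by exact_mod_cast h2)

theorem main (hT : TkS) (P : Finset ℕ) (hP : ∀ q ∈ P, q.Prime) (μ : ℝ)
    (hμ : μ = ∑ q ∈ P, ((q : ℝ))⁻¹) (h0 : 0 < μ) (E H D : ℕ) (hH : 0 < H) (hE : H ≤ E)
    (hQH : (∏ q ∈ P, q) ∣ H) (hQD : (∏ q ∈ P, q) ∣ D) (h2 : ∀ q ∈ P, q ^ 2 ∣ D)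
    (he : ∀ e ∈ Ico E (E + H), e ∣ D ∧ (∏ q ∈ P, q) ∣ D / e) :
    ((cov E H D).card : ℝ) ≤ D * ∑ q ∈ P, (((q : ℝ)) ^ 2)⁻¹ + 48 / μ * D := by
  classical
  set bad : ℕ → Prop := fun t => μ / 4 ≤ |(om P t : ℝ) - μ| with hbad
  set A1 := P.biUnion (fun q => (range D).filter (fun t => q ^ 2 ∣ t ∧ True)) with hA1
  set A2 := ((Ico E (E + H)).filter bad).biUnion
    (fun e => (range D).filter (fun t => e ∣ t ∧ True)) with hA2
  set A3 := (Ico E (E + H)).biUnion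
    (fun e => (range D).filter (fun t => e ∣ t ∧ bad (t / e))) with hA3
  set A4 := (Ico 0 (0 + D)).filter bad with hA4
  have hsub : cov E H D ⊆ A1 ∪ A2 ∪ A3 ∪ A4 := by
    intro t ht
    obtain ⟨ht1, e, heI, het⟩ := mem_filter.1 ht
    have htD : t < D := (mem_Ico.1 ht1).2
    simp only [mem_union]
    by_cases c1 : ∃ q ∈ P, q ^ 2 ∣ t
    · obtain ⟨q, hq, hqt⟩ := c1
      exact Or.inl (Or.inl (Or.inl (mem_biUnion.2
        ⟨q, hq, mem_filter.2 ⟨mem_range.2 htD, hqt, trivial⟩⟩)))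
    by_cases c2 : bad e
    · exact Or.inl (Or.inl (Or.inr (mem_biUnion.2
        ⟨e, mem_filter.2 ⟨heI, c2⟩, mem_filter.2 ⟨mem_range.2 htD, het, trivial⟩⟩)))
    by_cases c3 : bad (t / e)
    · exact Or.inl (Or.inr (mem_biUnion.2
        ⟨e, heI, mem_filter.2 ⟨mem_range.2 htD, het, c3⟩⟩))
    refine Or.inr (mem_filter.2 ⟨mem_Ico.2 ⟨Nat.zero_le _, by omega⟩, ?_⟩)
    have ht' : e * (t / e) = t := Nat.mul_div_cancel' het
    have hadd := om_add (P := P) (e := e) (m := t / e)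
      (fun q hq hd => c1 ⟨q, hq, ht' ▸ hd⟩)
    rw [ht'] at hadd
    have hadd' : (om P e : ℝ) + om P (t / e) ≤ om P t := by exact_mod_cast hadd
    have d2 := (abs_lt.1 (not_le.1 c2)).1
    have d3 := (abs_lt.1 (not_le.1 c3)).1
    exact le_abs.2 (Or.inl (by linarith))
  have hk : (0 : ℝ) ≤ 16 / μ := by positivity
  have hc : (H : ℝ) * ((D / H : ℕ) : ℝ) ≤ D := by exact_mod_cast Nat.mul_div_le D H
  have hce : ∀ e ∈ Ico E (E + H), D / e ≤ D / H := fun e h =>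
    Nat.div_le_div_left (hE.trans (mem_Ico.1 h).1) hH
  have hpos : ∀ e ∈ Ico E (E + H), 0 < e := fun e h => by have := (mem_Ico.1 h).1; omega
  have b1 : (A1.card : ℝ) ≤ D * ∑ q ∈ P, (((q : ℝ)) ^ 2)⁻¹ := by
    have := (Nat.cast_le (α := ℝ)).2 (card_biUnion_le (s := P)
      (t := fun q => (range D).filter (fun t => q ^ 2 ∣ t ∧ True)))
    refine this.trans ?_
    rw [Nat.cast_sum, mul_sum]
    refine sum_le_sum (fun q hq => ?_)
    have h3 := (Nat.cast_le (α := ℝ)).2 (mult (pow_pos (hP q hq).pos 2) (h2 q hq))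
    refine h3.trans (Nat.cast_div_le.trans (le_of_eq ?_))
    rw [Nat.cast_pow, div_eq_mul_inv]
  have b2 : (A2.card : ℝ) ≤ 16 / μ * D := by
    have h3 : A2.card ≤ ((Ico E (E + H)).filter bad).card * (D / H) :=
      card_biUnion_le_card_mul _ _ _ (fun e h =>
        (mult (hpos e (mem_filter.1 h).1) (he e (mem_filter.1 h).1).1).trans
          (hce e (mem_filter.1 h).1))
    have h4 := hT P E H μ hP hQH hμ h0
    calc (A2.card : ℝ) ≤ (((Ico E (E + H)).filter bad).card : ℝ) * ((D / H : ℕ) : ℝ) := by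
          exact_mod_cast h3
      _ ≤ (16 / μ * H) * ((D / H : ℕ) : ℝ) := mul_le_mul_of_nonneg_right h4 (Nat.cast_nonneg _)
      _ = 16 / μ * (H * ((D / H : ℕ) : ℝ)) := by ring
      _ ≤ 16 / μ * D := mul_le_mul_of_nonneg_left hc hk
  have b3 : (A3.card : ℝ) ≤ 16 / μ * D := by
    have := (Nat.cast_le (α := ℝ)).2 (card_biUnion_le (s := Ico E (E + H))
      (t := fun e => (range D).filter (fun t => e ∣ t ∧ bad (t / e))))
    refine this.trans ?_
    rw [Nat.cast_sum]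
    have h3 := sum_le_card_nsmul (Ico E (E + H))
      (fun e => (((range D).filter (fun t => e ∣ t ∧ bad (t / e))).card : ℝ))
      (16 / μ * ((D / H : ℕ) : ℝ)) (fun e h => by
        have h4 := (Nat.cast_le (α := ℝ)).2 (quo (hpos e h) (he e h).1 bad)
        have h5 := hT P 0 (D / e) μ hP (he e h).2 hμ h0
        refine h4.trans (h5.trans (mul_le_mul_of_nonneg_left ?_ hk))
        exact_mod_cast hce e h)
    refine h3.trans ?_
    rw [Nat.card_Ico, Nat.add_sub_cancel_left, nsmul_eq_mul]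
    calc (H : ℝ) * (16 / μ * ((D / H : ℕ) : ℝ)) = 16 / μ * (H * ((D / H : ℕ) : ℝ)) := by ring
      _ ≤ 16 / μ * D := mul_le_mul_of_nonneg_left hc hk
  have b4 : (A4.card : ℝ) ≤ 16 / μ * D := hT P 0 D μ hP hQD hμ h0
  have hcard : (cov E H D).card ≤ A1.card + A2.card + A3.card + A4.card :=
    (card_le_card hsub).trans ((card_union_le _ _).trans (Nat.add_le_add_right
      ((card_union_le _ _).trans (Nat.add_le_add_right (card_union_le _ _) _)) _))
  have hcard' : ((cov E H D).card : ℝ) ≤ A1.card + A2.card + A3.card + A4.card := by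
    exact_mod_cast hcard
  have : 48 / μ * (D : ℝ) = 16 / μ * D + 16 / μ * D + 16 / μ * D := by ring
  linarith

end Erd

theorem erd (hT : TkS) (hB : BigS) : ErdS := by
  intro δ h hδ hh
  obtain ⟨Y, hY⟩ := exists_nat_gt (2 / δ)
  have hY0 : (0 : ℝ) < Y := lt_trans (by positivity) hY
  obtain ⟨P, hP, ha, hs⟩ := hB Y (98 / δ) (by exact_mod_cast hY0)
  set μ := ∑ q ∈ P, ((q : ℝ))⁻¹ with hμ
  have h0 : 0 < μ := lt_of_lt_of_le (by positivity) ha
  have hmu := Erd.mu_le hP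
  rw [← hμ] at hmu
  set Q := ∏ q ∈ P, q with hQ
  have hQ0 : 0 < Q := prod_pos (fun q hq => (hP q hq).pos)
  have hF : 0 < (h * Q + Q).factorial := Nat.factorial_pos _
  refine ⟨Q, (h * Q + Q).factorial * Q ^ 2, hQ0, by positivity,
    fun e h1 h2 => Dvd.dvd.mul_right (Nat.dvd_factorial h1 h2) _, ?_⟩
  have hQQ : Q ∣ Q ^ 2 := dvd_pow_self Q two_ne_zero
  have hm := Erd.main hT P hP μ hμ h0 (h * Q) Q ((h * Q + Q).factorial * Q ^ 2) hQ0
    (Nat.le_mul_of_pos_left Q hh) dvd_rfl (Dvd.dvd.mul_left hQQ _)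
    (fun q hq => Dvd.dvd.mul_left (pow_dvd_pow_of_dvd (dvd_prod_of_mem (fun q => q) hq) 2) _)
    (fun e he => by
      have h1 : 0 < e := lt_of_lt_of_le (Nat.mul_pos hh hQ0) (mem_Ico.1 he).1
      obtain ⟨c, hc⟩ := Nat.dvd_factorial h1 (mem_Ico.1 he).2.le
      rw [hc, mul_assoc, Nat.mul_div_cancel_left _ h1]
      exact ⟨Dvd.intro _ rfl, Dvd.dvd.mul_left hQQ _⟩)
  have hQD : Q * Q ≤ (h * Q + Q).factorial * Q ^ 2 := by
    rw [pow_two]; exact Nat.le_mul_of_pos_left _ hF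
  generalize (h * Q + Q).factorial * Q ^ 2 = D at hm hQD ⊢
  have hD : (0 : ℝ) ≤ D := Nat.cast_nonneg _
  have hQD' : (Q : ℝ) * Q ≤ D := by exact_mod_cast hQD
  have h1 : (Q : ℝ) ≤ 1 / μ * D := by
    rw [one_div, inv_mul_eq_div, le_div_iff₀ h0]
    exact (mul_le_mul_of_nonneg_left hmu (Nat.cast_nonneg _)).trans hQD'
  have h2 : ((Y : ℝ))⁻¹ ≤ δ / 2 := by
    rw [inv_le_comm₀ hY0 (by positivity), inv_div]; exact hY.le
  have h3 : 49 / μ ≤ δ / 2 := by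
    rw [div_le_iff₀ hδ] at ha
    rw [div_le_iff₀ h0]; linarith
  have h4 : (D : ℝ) * ∑ q ∈ P, (((q : ℝ)) ^ 2)⁻¹ ≤ D * (δ / 2) :=
    mul_le_mul_of_nonneg_left (hs.trans h2) hD
  have h5 : 49 / μ * (D : ℝ) ≤ δ / 2 * D := mul_le_mul_of_nonneg_right h3 hD
  have h6 : 49 / μ * (D : ℝ) = 1 / μ * D + 48 / μ * D := by ring
  linarith

end Pool.Agent.MP_0c16b3_nt.N
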