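import Pool.Agent.MP_0c16b3_nt.N.Spec
import Pool.Agent.MP_0c16b3_nt.H.Adj

/-! From the certificate to the Lerch numerators. -/

namespace Pool.Agent.MP_0c16b3_nt.N

open Finset Pool.Agent.MP_0c16b3_nt.W

theorem final2 (hC : Cert2S) (ε : ℝ) (hε : 0 < ε) : ∃ K0 : ℕ, ∀ K : ℕ, K0 ≤ K → ∃ p0 : ℕ,
    ∀ p : ℕ, p.Prime → p0 ≤ p → ∀ r : ℤ,
    (((range K).filter (fun k : ℕ => num p k ≡ r [ZMOD (p : ℤ) ^ 3])).card : ℝ) ≤ ε * K := by
  classical
  obtain ⟨K0, hK0⟩ := hC ε hε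
  refine ⟨K0, fun K hK => ?_⟩
  obtain ⟨K', hKK, h⟩ := hK0 K hK
  choose! z hz0 hz using h
  refine ⟨∑ A ∈ (range K).powerset, (z A).natAbs + K' + 3, fun p hp hp0 r => ?_⟩
  by_contra hcon
  push Not at hcon
  obtain ⟨A, hA⟩ : ∃ A : Finset ℕ,
      A = (range K).filter (fun k : ℕ => num p k ≡ r [ZMOD (p : ℤ) ^ 3]) := ⟨_, rfl⟩
  rw [← hA] at hcon
  have hAK : A ⊆ range K := hA ▸ filter_subset _ _
  have : Fact p.Prime := ⟨hp⟩
  obtain ⟨φ, ω, hφ, hω, hrec⟩ := recS p hp (by omega)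
  have hne : ∀ i : ℕ, 0 < i → i ≤ K' → (i : ZMod p) ≠ 0 := by
    intro i h0 hi h
    have := Nat.le_of_dvd h0 ((ZMod.natCast_eq_zero_iff i p).1 h)
    omega
  have hom : ∀ k : ℕ, k < K' → ω k = ω 0 - L.hz (ZMod p) (k + 1) := by
    intro k hk
    unfold L.hz
    induction k with
    | zero => simp
    | succ k ih =>
      have h1 := hω k (by omega)
      have h2 := hne (k + 1) (by omega) (by omega)
      rw [sum_range_succ, ← sub_sub, ← ih (by omega)]
      push_cast at h2 ⊢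
      field_simp
      linear_combination h1
  obtain ⟨ρ, hρ⟩ : ∃ ρ : ZMod p, ∀ k ∈ A, φ k = ρ := by
    rcases A.eq_empty_or_nonempty with rfl | ⟨k0, hk0⟩
    · exact ⟨0, fun k hk => absurd hk (notMem_empty k)⟩
    · refine ⟨φ k0, fun k hk => ?_⟩
      have a1 := mem_range.1 (hAK hk)
      have a2 := mem_range.1 (hAK hk0)
      rw [hA] at hk hk0
      exact hφ k k0 (by omega) (by omega) ((mem_filter.1 hk).2.trans (mem_filter.1 hk0).2.symm)
  have h1 := hz A hAK hcon (ZMod p) φ (fun m => fq p m * ((m : ZMod p))⁻¹) (1 - ω 0) ρ hne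
    (fun a b ha hb hab => ?_) (fun k hk => ?_) hρ
  · have h2 := (ZMod.intCast_zmod_eq_zero_iff_dvd _ _).1 h1
    have h3 := Nat.le_of_dvd (Int.natAbs_pos.2 (hz0 A hAK hcon)) (Int.natCast_dvd.1 h2)
    have h4 := single_le_sum (f := fun A => (z A).natAbs) (fun _ _ => Nat.zero_le _)
      (mem_powerset.2 hAK)
    omega
  · have a1 := hne a ha (le_trans (Nat.le_mul_of_pos_right a hb) hab)
    have a2 := hne b hb (le_trans (Nat.le_mul_of_pos_left b ha) hab)
    rw [H.fq_mul p hp]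
    push_cast
    field_simp
    ring
  · have a1 := hne (k + 1) (by omega) hk
    have a2 := hrec k (by omega)
    rw [hom k (by omega)] at a2
    push_cast at a1 ⊢
    field_simp
    linear_combination a2

end Pool.Agent.MP_0c16b3_nt.N
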