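import Pool.Agent.MP_0c16b3_nt.N.Spec

/-! Row Lin2: integer coefficients on a shape with scales in `[E, E + H)`, with bounded tails. -/

namespace Pool.Agent.MP_0c16b3_nt.N

open Finset Pool.Agent.MP_0c16b3_nt.L

namespace Lin2

/-- extension by zero -/
def ex (I : Finset (ℕ × ℕ)) : (I → ℤ) →ₗ[ℤ] (ℕ → ℕ → ℤ) where
  toFun t e s := if h : (e, s) ∈ I then t ⟨(e, s), h⟩ else 0
  map_add' t t' := by
    funext e s
    by_cases h : (e, s) ∈ I <;> simp [h]
  map_smul' c t := by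
    funext e s
    by_cases h : (e, s) ∈ I <;> simp [h]

/-- the linear conditions -/
def cond (E H D : ℕ) : (ℕ → ℕ → ℤ) →ₗ[ℤ] ((Ico E (E + H) → ℤ) × (cov E H D → ℤ)) where
  toFun ν := (fun e => ∑ s ∈ range (D / e), ν e s,
    fun t => ∑ e ∈ (Icc 1 (E + H)).filter (· ∣ (t : ℕ)), (e : ℤ) * tail D ν e (t / e))
  map_add' ν ν' := by
    refine Prod.ext (funext fun e => ?_) (funext fun t => ?_)
    · simp [sum_add_distrib]
    · simp [tail, sum_add_distrib, mul_add]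
  map_smul' c ν := by
    refine Prod.ext (funext fun e => ?_) (funext fun t => ?_)
    · simp [mul_sum]
    · simp [tail, mul_sum, mul_left_comm]

theorem one (E H D : ℕ) (hE : 0 < E) (I : Finset (ℕ × ℕ)) : ∃ B : ℕ,
    (∀ x ∈ I, E ≤ x.1 ∧ x.1 < E + H ∧ x.2 < D / x.1) → H + (cov E H D).card < I.card →
    ∃ ν : ℕ → ℕ → ℤ, (∀ e s, (e, s) ∉ I → ν e s = 0) ∧
      (∀ e, ∑ s ∈ range (D / e), ν e s = 0) ∧
      (∀ t, 0 < t → t < D →
        ∑ e ∈ (Icc 1 (E + H)).filter (· ∣ t), (e : ℤ) * tail D ν e (t / e) = 0) ∧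
      (∀ e u, |tail D ν e u| ≤ B) ∧
      ∃ e u, 1 ≤ e ∧ e ≤ E + H ∧ 1 ≤ u ∧ u < D / e ∧ tail D ν e u ≠ 0 := by
  classical
  by_cases hc : H + (cov E H D).card < I.card
  swap
  · exact ⟨0, fun _ h => absurd h hc⟩
  have hni : ¬ Function.Injective ((cond E H D).comp (ex I)) := fun h => by
    have := LinearMap.finrank_le_finrank_of_injective h
    simp at this
    omega
  rw [injective_iff_map_eq_zero] at hni
  push Not at hni
  obtain ⟨t, ht, ht0⟩ := hni
  set ν := ex I t with hν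
  have hz : ∀ e s, (e, s) ∉ I → ν e s = 0 := fun e s h => dif_neg h
  refine ⟨∑ e ∈ range (E + H), ∑ s ∈ range D, (ν e s).natAbs, fun hI _ => ?_⟩
  have hz' : ∀ e s, ν e s ≠ 0 → E ≤ e ∧ e < E + H ∧ s < D / e := fun e s h =>
    hI (e, s) (by_contra fun h' => h (hz e s h'))
  have h1 : ∀ e, ∑ s ∈ range (D / e), ν e s = 0 := fun e => by
    by_cases he : e ∈ Ico E (E + H)
    · exact congrFun (congrArg Prod.fst ht) ⟨e, he⟩
    · refine sum_eq_zero fun s _ => by_contra fun h => he ?_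
      exact mem_Ico.2 ⟨(hz' e s h).1, (hz' e s h).2.1⟩
  refine ⟨ν, hz, h1, fun t' h0 hD => ?_, fun e u => ?_, ?_⟩
  · by_cases hcv : t' ∈ cov E H D
    · exact congrFun (congrArg Prod.snd ht) ⟨t', hcv⟩
    · refine sum_eq_zero fun e he => mul_eq_zero_of_right _ (sum_eq_zero fun s _ => ?_)
      by_contra h
      exact hcv (mem_filter.2 ⟨mem_Ico.2 ⟨h0, hD⟩, e,
        mem_Ico.2 ⟨(hz' e s h).1, (hz' e s h).2.1⟩, (mem_filter.1 he).2⟩)
  · refine (abs_sum_le_sum_abs _ _).trans ?_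
    push_cast
    by_cases he : e < E + H
    · refine le_trans ?_ (single_le_sum (f := fun e => ∑ s ∈ range D, |ν e s|)
        (fun e _ => sum_nonneg fun s _ => abs_nonneg _) (mem_range.2 he))
      refine sum_le_sum_of_subset_of_nonneg (fun s hs => mem_range.2 ?_) fun s _ _ => abs_nonneg _
      exact (mem_Ico.1 hs).2.trans_le (Nat.div_le_self _ _)
    · refine le_trans (le_of_eq (sum_eq_zero fun s _ => ?_))
        (sum_nonneg fun e _ => sum_nonneg fun s _ => abs_nonneg _)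
      exact abs_eq_zero.2 (by_contra fun h => he (hz' e s h).2.1)
  · obtain ⟨⟨⟨e, s0⟩, hx⟩, hx0⟩ := Function.ne_iff.1 ht0
    have hs0 : ν e s0 ≠ 0 := by
      have : ν e s0 = t ⟨(e, s0), hx⟩ := dif_pos hx
      rw [this]
      exact hx0
    obtain ⟨s, hs, hmax⟩ := exists_max_image ((range (D / e)).filter fun s => ν e s ≠ 0) id
      ⟨s0, mem_filter.2 ⟨mem_range.2 (hz' e s0 hs0).2.2, hs0⟩⟩
    obtain ⟨hs1, hs2⟩ := mem_filter.1 hs
    have ht1 : tail D ν e s = ν e s := by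
      refine sum_eq_single_of_mem s (mem_Ico.2 ⟨le_rfl, mem_range.1 hs1⟩) fun r hr hne => ?_
      by_contra h
      have h2 : r ≤ s := hmax r (mem_filter.2 ⟨mem_range.2 (mem_Ico.1 hr).2, h⟩)
      have h3 := (mem_Ico.1 hr).1
      omega
    refine ⟨e, s, le_trans hE (hz' e s hs2).1, (hz' e s hs2).2.1.le, ?_, mem_range.1 hs1,
      ht1 ▸ hs2⟩
    by_contra h
    have h0 : s = 0 := by omega
    subst h0
    refine hs2 (ht1.symm.trans ?_)
    rw [tail, ← range_eq_Ico]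
    exact h1 e

end Lin2

theorem lin2 : Lin2S := by
  intro E H D hE _
  choose B hB using Lin2.one E H D hE
  refine ⟨∑ I ∈ (range (E + H) ×ˢ range D).powerset, B I, fun I hI hc => ?_⟩
  obtain ⟨ν, h1, h2, h3, h4, h5⟩ := hB I hI hc
  refine ⟨ν, h1, h2, h3, fun e u => (h4 e u).trans ?_, h5⟩
  have : I ∈ (range (E + H) ×ˢ range D).powerset := mem_powerset.2 fun x hx =>
    mem_product.2 ⟨mem_range.2 (hI x hx).2.1,
      mem_range.2 ((hI x hx).2.2.trans_le (Nat.div_le_self _ _))⟩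
  exact_mod_cast single_le_sum (f := B) (fun _ _ => Nat.zero_le _) this

end Pool.Agent.MP_0c16b3_nt.N
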