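import Pool.Agent.MP_0c16b3_nt.N.Spec
import Pool.Agent.MP_0c16b3_nt.L.Nonv

namespace Pool.Agent.MP_0c16b3_nt.N

open Finset Pool.Agent.MP_0c16b3_nt.L

open Pool.Agent.MP_0c16b3_nt.L.Nonv in
theorem nonv2 (hZ : NzS) (hH : HvS) (hP : Prim2S) : Nonv2S := by
  intro M D B C g hD hdiv
  obtain ⟨n1, hn1⟩ := hP (D * g)
  refine ⟨2 * (2 * (D * (M + 1)) + C + D * B) + 1, max n1 (B * D ^ D + 1), ?_⟩
  intro K L n T lam hK hn hL1 hC hng hsep hT hex hlam hl h0
  set P := ∏ j, den D (n j) with hPdef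
  have hP0 : 0 < P := prod_pos fun j _ => den_pos _ _
  have hPd : ∀ j, den D (n j) ∣ P := fun j => dvd_prod_of_mem _ (mem_univ j)
  have hPle : P ≤ K ^ (D * (M + 1)) := by
    refine (prod_le_pow_card _ _ (K ^ D) fun j _ => den_le (by omega) (hn j)).trans ?_
    rw [card_univ, Fintype.card_fin, ← pow_mul]
  have hb : ∀ i : Fin (M + 1) × ℕ, ∃ z : ℤ, i.2 ∈ Icc 1 M →
      (z : ℚ) = (P : ℚ) ^ 2 * lam i.1 * nf ℚ D (n i.1) (T i.1) i.2 := by
    intro i
    by_cases hi : i.2 ∈ Icc 1 M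
    · obtain ⟨h1, h2⟩ := mem_Icc.1 hi
      obtain ⟨z, hz⟩ := Subring.mem_bot.1 (nf_mem (T i.1) h1 (hdiv _ h1 h2) (hPd i.1))
      exact ⟨P * lam i.1 * z, fun _ => by push_cast; rw [hz]; ring⟩
    · exact ⟨0, fun h => absurd h hi⟩
  choose β hβ using hb
  obtain ⟨γ, hγ⟩ := Subring.mem_bot.1 (sum_mem (t := univ) fun j _ =>
    mul_mem (intCast_mem (⊥ : Subring ℚ) (lam j)) (loc_mem (T j) hdiv (hPd j)))
  have hsum : ∑ i ∈ (univ : Finset (Fin (M + 1))) ×ˢ Icc 1 M,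
      (β i : ℚ) * hz ℚ (D / i.2 * n i.1 + 1) + γ = 0 := by
    rw [← mul_zero ((P : ℚ) ^ 2), ← h0, hγ, sum_product, ← sum_add_distrib, mul_sum]
    refine sum_congr rfl fun j _ => ?_
    rw [yf_eq, sum_congr rfl fun e he => by rw [hβ (j, e) he], mul_add, mul_add, mul_sum, mul_sum]
    congr 1
    · exact sum_congr rfl fun e _ => by ring
    · ring
  have hLB : B * D ^ D + 1 ≤ L := (le_max_right _ _).trans hL1
  have hq1 : ∀ e ∈ Icc 1 M, 1 ≤ D / e := fun e he =>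
    Nat.div_pos (Nat.le_of_dvd hD (hdiv _ (mem_Icc.1 he).1 (mem_Icc.1 he).2)) (mem_Icc.1 he).1
  have hne : (((univ : Finset (Fin (M + 1))) ×ˢ Icc 1 M).filter fun i => β i ≠ 0).Nonempty := by
    obtain ⟨j, hj⟩ := Function.ne_iff.1 hlam
    obtain ⟨e, u, h1, h2, h3, h4, h5⟩ := hex j
    have he : e ∈ Icc 1 M := mem_Icc.2 ⟨h1, h2⟩
    have hnf : nf ℚ D (n j) (T j) e ≠ 0 := by
      refine hZ D B (D / e) (D / e * n j) (T j e) (Nat.div_le_self _ _) (hT j e) ⟨u, h3, h4, h5⟩ ?_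
      have h6 := (hng j).1
      have h7 := Nat.le_mul_of_pos_left (n j) (show 0 < D / e by omega)
      omega
    refine ⟨(j, e), mem_filter.2 ⟨mem_product.2 ⟨mem_univ _, he⟩, fun h => ?_⟩⟩
    have h8 := hβ (j, e) he
    rw [h, Int.cast_zero] at h8
    have hj' : lam j ≠ 0 := hj
    exact mul_ne_zero (mul_ne_zero (by positivity) (by exact_mod_cast hj')) hnf h8.symm
  obtain ⟨⟨j0, e0⟩, hm0, hmax⟩ := exists_max_image _ (fun i => D / i.2 * n i.1) hne
  obtain ⟨hm1, hβ0⟩ := mem_filter.1 hm0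
  have he0 : e0 ∈ Icc 1 M := (mem_product.1 hm1).2
  obtain ⟨he1, he2⟩ := mem_Icc.1 he0
  have hc0 : 1 ≤ D / e0 := hq1 e0 he0
  have hnc : n j0 ≤ D / e0 * n j0 := Nat.le_mul_of_pos_left _ hc0
  have hg0 := hng j0
  have hup : D / e0 * n j0 ≤ D * g * L := by
    rw [mul_assoc]
    exact Nat.mul_le_mul (Nat.div_le_self _ _) hg0.2
  have hexp := hn1 L (D / e0 * n j0) ((le_max_left _ _).trans hL1) (by omega) hup
    (β (j0, e0)) hβ0 fun l hl1 hl2 hl3 => by
      refine hH _ (univ ×ˢ Icc 1 M) β (fun i => D / i.2 * n i.1 + 1) (j0, e0) γ l hl1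
        hm1 ?_ (by dsimp only; omega) (by dsimp only; omega) hsum
      rintro ⟨j, e⟩ hi hne' hbi
      have he : e ∈ Icc 1 M := (mem_product.1 hi).2
      have hle : D / e * n j ≤ D / e0 * n j0 := hmax (j, e) (mem_filter.2 ⟨hi, hbi⟩)
      dsimp only
      by_cases hj : j = j0
      · subst hj
        have h1 : e ≠ e0 := fun h => hne' (by rw [h])
        have hd1 := hdiv _ (mem_Icc.1 he).1 (mem_Icc.1 he).2
        have hd2 := hdiv _ he1 he2
        have h2 : D / e < D / e0 := by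
          rcases lt_or_gt_of_ne h1 with h | h
          · have h3 : D / e0 < D / e := (Nat.div_lt_div_left hD.ne' hd2 hd1).2 h
            have h4 : (D / e0 + 1) * n j ≤ D / e * n j := Nat.mul_le_mul_right _ h3
            rw [add_mul, one_mul] at h4
            omega
          · exact (Nat.div_lt_div_left hD.ne' hd1 hd2).2 h
        have h3 : (D / e + 1) * n j ≤ D / e0 * n j := Nat.mul_le_mul_right _ h2
        rw [add_mul, one_mul] at h3
        omega
      · have h1 := hsep j j0 hj (D / e) (D / e0) (hq1 e he) (Nat.div_le_self _ _) hc0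
          (Nat.div_le_self _ _)
        omega
  have hbd : |(β (j0, e0) : ℚ)| ≤ (K : ℚ) ^ (2 * (D * (M + 1)) + C + D * B) := by
    rw [hβ (j0, e0) he0, abs_mul, abs_mul, pow_add, pow_add, abs_of_nonneg (by positivity),
      mul_comm 2, pow_mul]
    have h1 : (P : ℚ) ≤ (K : ℚ) ^ (D * (M + 1)) := by exact_mod_cast hPle
    have h2 : |(lam j0 : ℚ)| ≤ (K : ℚ) ^ C := by exact_mod_cast hl j0
    have h3 : ((D * B : ℕ) : ℚ) ≤ (K : ℚ) ^ (D * B) := by
      exact_mod_cast (Nat.lt_pow_self (by omega)).le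
    have h4 := (nf_abs (D := D) (n := n j0) (e := e0) (T j0) (hT j0)).trans h3
    gcongr
  have hbr : |(β (j0, e0) : ℝ)| ≤ (K : ℝ) ^ (2 * (D * (M + 1)) + C + D * B) := by
    exact_mod_cast hbd
  have hK1 : (1 : ℝ) < K := by exact_mod_cast hK
  have hlog := Real.log_pos hK1
  have h5 := Real.log_le_log (Real.exp_pos _) (hexp.trans hbr)
  rw [Real.log_exp, Real.log_pow] at h5
  rw [Nat.cast_add, Nat.cast_mul, Nat.cast_one, Nat.cast_ofNat] at hC
  nlinarith

end Pool.Agent.MP_0c16b3_nt.N
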