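import Pool.Agent.MP_0c16b3_nt.N.Spec
import Pool.Agent.MP_0c16b3_nt.L.Prim

/-! An integer divisible by all primes of a long interval is large (interval of length `L`). -/

namespace Pool.Agent.MP_0c16b3_nt.N

open Finset Pool.Agent.MP_0c16b3_nt.L

theorem prim2 : Prim2S := by
  intro G
  have hD : (0 : ℝ) < 4 * (G + 1) := by positivity
  obtain ⟨x0, hx⟩ := Prim.th (one_div_pos.2 hD)
  refine ⟨⌈x0⌉₊, fun L b hn hb hG β hβ hl => ?_⟩
  obtain ⟨a, ha⟩ : ∃ a, a = b - L := ⟨_, rfl⟩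
  have hab : a ≤ b := by omega
  have h1 := (hx a ((Nat.le_ceil x0).trans (by exact_mod_cast (by omega : ⌈x0⌉₊ ≤ a)))).2
  have h2 := (hx b ((Nat.le_ceil x0).trans (by exact_mod_cast (by omega : ⌈x0⌉₊ ≤ b)))).1
  have r1 : (a : ℝ) + L = b := by exact_mod_cast (by omega : a + L = b)
  have r2 : (a : ℝ) ≤ b := by exact_mod_cast hab
  have r3 : (b : ℝ) ≤ G * L := by exact_mod_cast hG
  have r4 : (0 : ℝ) ≤ L := Nat.cast_nonneg L
  have r5 : 1 / (4 * ((G : ℝ) + 1)) * (a + b) ≤ L / 2 := by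
    rw [one_div_mul_eq_div, div_le_iff₀ hD]
    linarith
  have h3 := Prim.diff hab
  have hP : (∏ p ∈ (Ioc a b).filter Nat.Prime, p) ∣ β.natAbs :=
    prod_primes_dvd _ (fun p hp => (mem_filter.1 hp).2.prime) fun p hp => by
      obtain ⟨p1, p2⟩ := mem_filter.1 hp
      rw [mem_Ioc] at p1
      exact Int.natCast_dvd.1 (hl p p2 (by omega) p1.2)
  have h4 := Nat.le_of_dvd (Int.natAbs_pos.2 hβ) hP
  have h5 : 0 < ∏ p ∈ (Ioc a b).filter Nat.Prime, p := prod_pos fun p hp => (mem_filter.1 hp).2.pos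
  generalize (∏ p ∈ (Ioc a b).filter Nat.Prime, p) = P at h3 h4 h5
  have h6 : (P : ℝ) ≤ |(β : ℝ)| := by
    rw [← Int.cast_abs, ← Int.natCast_natAbs]
    exact_mod_cast h4
  refine le_trans ?_ h6
  rw [← Real.le_log_iff_exp_le (by exact_mod_cast h5)]
  linarith

end Pool.Agent.MP_0c16b3_nt.N
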