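import Pool.Agent.MP_0c16b3_nt.N.Spec

/-! Greedy selection of well separated elements. -/

namespace Pool.Agent.MP_0c16b3_nt.N

open Finset Pool.Agent.MP_0c16b3_nt.L

namespace Sel

theorem bad_card (G : Finset ℕ) (a d L : ℕ) (hd : 1 ≤ d) :
    (G.filter (fun x => ¬ (a + L ≤ d * x ∨ d * x + L ≤ a))).card ≤ 2 * L := by
  have h : (G.filter (fun x => ¬ (a + L ≤ d * x ∨ d * x + L ≤ a))).card ≤ (range (2 * L)).card := by
    refine card_le_card_of_injOn (fun x => d * x + L - a) ?_ ?_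
    · intro x hx
      have hx' := (mem_filter.1 (mem_coe.1 hx)).2
      simp only [coe_range, Set.mem_Iio]
      omega
    · intro x hx y hy hxy
      have hx' := (mem_filter.1 (mem_coe.1 hx)).2
      have hy' := (mem_filter.1 (mem_coe.1 hy)).2
      have h1 : d * x = d * y := by
        simp only at hxy
        omega
      exact Nat.eq_of_mul_eq_mul_left hd h1
  simpa using h

theorem step (k D L : ℕ) (G : Finset ℕ) (n : Fin k → ℕ)
    (hG : 2 * L + k * (D ^ 2 * (2 * L)) < G.card) :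
    ∃ x ∈ G, 2 * L ≤ x ∧ ∀ i, ∀ c d : ℕ, 1 ≤ c → c ≤ D → 1 ≤ d → d ≤ D →
      c * n i + L ≤ d * x ∨ d * x + L ≤ c * n i := by
  classical
  set T : Finset (Fin k × ℕ × ℕ) := univ ×ˢ (Icc 1 D ×ˢ Icc 1 D) with hT
  set B : Finset ℕ := T.biUnion (fun t => G.filter
    (fun x => ¬ (t.2.1 * n t.1 + L ≤ t.2.2 * x ∨ t.2.2 * x + L ≤ t.2.1 * n t.1))) with hB
  have hTc : T.card = k * D ^ 2 := by
    simp [hT, pow_two]
  have hBc : B.card ≤ k * (D ^ 2 * (2 * L)) := by
    have h1 : B.card ≤ T.card * (2 * L) := by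
      refine card_biUnion_le_card_mul _ _ _ ?_
      intro t ht
      have ht2 : 1 ≤ t.2.2 := by
        have := (mem_product.1 (mem_product.1 ht).2).2
        exact (mem_Icc.1 this).1
      exact bad_card G _ _ L ht2
    rw [hTc, mul_assoc] at h1
    exact h1
  have hlt : (range (2 * L) ∪ B).card < G.card := by
    have h1 := card_union_le (range (2 * L)) B
    rw [card_range] at h1
    omega
  obtain ⟨x, hxG, hx⟩ := exists_mem_notMem_of_card_lt_card hlt
  rw [mem_union, not_or] at hx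
  refine ⟨x, hxG, ?_, ?_⟩
  · have := hx.1
    rw [mem_range] at this
    omega
  · intro i c d hc1 hc2 hd1 hd2
    by_contra hcon
    apply hx.2
    rw [hB, mem_biUnion]
    refine ⟨(i, c, d), ?_, mem_filter.2 ⟨hxG, hcon⟩⟩
    rw [hT]
    exact mem_product.2 ⟨mem_univ _, mem_product.2 ⟨mem_Icc.2 ⟨hc1, hc2⟩, mem_Icc.2 ⟨hd1, hd2⟩⟩⟩

theorem aux (m D L : ℕ) (G : Finset ℕ) (hG : 2 * L + m * (D ^ 2 * (2 * L)) < G.card) :
    ∀ k, k ≤ m + 1 → ∃ n : Fin k → ℕ, (∀ j, n j ∈ G ∧ 2 * L ≤ n j) ∧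
      ∀ i j, i ≠ j → ∀ c d : ℕ, 1 ≤ c → c ≤ D → 1 ≤ d → d ≤ D →
        c * n i + L ≤ d * n j ∨ d * n j + L ≤ c * n i := by
  intro k
  induction k with
  | zero => exact fun _ => ⟨Fin.elim0, fun j => j.elim0, fun i => i.elim0⟩
  | succ k ih =>
    intro hk
    obtain ⟨n, h1, h2⟩ := ih (by omega)
    have hk' : k * (D ^ 2 * (2 * L)) ≤ m * (D ^ 2 * (2 * L)) :=
      Nat.mul_le_mul_right _ (by omega)
    obtain ⟨x, hxG, hxL, hx⟩ := step k D L G n (by omega)
    refine ⟨Fin.cons x n, ?_, ?_⟩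
    · intro j
      refine Fin.cases ?_ (fun j => ?_) j
      · exact ⟨hxG, hxL⟩
      · exact h1 j
    · intro i j
      refine Fin.cases ?_ (fun i => ?_) i <;> refine Fin.cases ?_ (fun j => ?_) j
      · intro h
        exact absurd rfl h
      · intro _ c d hc1 hc2 hd1 hd2
        exact (hx j d c hd1 hd2 hc1 hc2).symm
      · intro _ c d hc1 hc2 hd1 hd2
        exact hx i c d hc1 hc2 hd1 hd2
      · intro h c d hc1 hc2 hd1 hd2
        exact h2 i j (fun e => h (by rw [e])) c d hc1 hc2 hd1 hd2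

end Sel

theorem sel : SelS := fun m D L G hG => Sel.aux m D L G hG (m + 1) le_rfl

end Pool.Agent.MP_0c16b3_nt.N
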