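import Pool.Agent.MP_0c16b3_nt.L.Spec

/-! Fixed shifts in natural density: statements of the further steps. -/

namespace Pool.Agent.MP_0c16b3_nt.N

open Finset Pool.Agent.MP_0c16b3_nt.L

/-- The integers in `[1, D)` with a divisor in `[E, E + H)`. -/
def cov (E H D : ℕ) : Finset ℕ := (Ico 1 D).filter (fun t => ∃ e ∈ Ico E (E + H), e ∣ t)

/-- The shape of `A` in the windows at `n`, for the scales in `[E, E + H)`. -/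
def shp (E H D n : ℕ) (A : Finset ℕ) : Finset (ℕ × ℕ) :=
  (Ico E (E + H) ×ˢ range D).filter (fun x => x.2 < D / x.1 ∧ D / x.1 * n + x.2 ∈ A)

/-- The number of primes of `P` dividing `t`. -/
def om (P : Finset ℕ) (t : ℕ) : ℕ := (P.filter (· ∣ t)).card

def TkS : Prop := ∀ (P : Finset ℕ) (a l : ℕ) (μ : ℝ), (∀ q ∈ P, q.Prime) → (∏ q ∈ P, q) ∣ l →
  μ = ∑ q ∈ P, ((q : ℝ))⁻¹ → 0 < μ →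
  (((Ico a (a + l)).filter (fun t => μ / 4 ≤ |(om P t : ℝ) - μ|)).card : ℝ) ≤ 16 / μ * l

def BigS : Prop := ∀ (Y : ℕ) (a : ℝ), 0 < Y → ∃ P : Finset ℕ, (∀ q ∈ P, q.Prime) ∧
  a ≤ ∑ q ∈ P, ((q : ℝ))⁻¹ ∧ ∑ q ∈ P, (((q : ℝ)) ^ 2)⁻¹ ≤ ((Y : ℝ))⁻¹

def ErdS : Prop := ∀ (δ : ℝ) (h : ℕ), 0 < δ → 0 < h → ∃ H D : ℕ, 0 < H ∧ 0 < D ∧
  (∀ e, 1 ≤ e → e ≤ h * H + H → e ∣ D) ∧ ((H : ℝ) + (cov (h * H) H D).card ≤ δ * D)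

def Lin2S : Prop := ∀ E H D : ℕ, 0 < E → 0 < H → ∃ B : ℕ, ∀ I : Finset (ℕ × ℕ),
  (∀ x ∈ I, E ≤ x.1 ∧ x.1 < E + H ∧ x.2 < D / x.1) → H + (cov E H D).card < I.card →
  ∃ ν : ℕ → ℕ → ℤ, (∀ e s, (e, s) ∉ I → ν e s = 0) ∧
    (∀ e, ∑ s ∈ range (D / e), ν e s = 0) ∧
    (∀ t, 0 < t → t < D →
      ∑ e ∈ (Icc 1 (E + H)).filter (· ∣ t), (e : ℤ) * tail D ν e (t / e) = 0) ∧
    (∀ e u, |tail D ν e u| ≤ B) ∧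
    ∃ e u, 1 ≤ e ∧ e ≤ E + H ∧ 1 ≤ u ∧ u < D / e ∧ tail D ν e u ≠ 0

def Prim2S : Prop := ∀ G : ℕ, ∃ L1 : ℕ, ∀ L x : ℕ, L1 ≤ L → 2 * L ≤ x → x ≤ G * L →
  ∀ β : ℤ, β ≠ 0 → (∀ l : ℕ, l.Prime → x < l + L → l ≤ x → (l : ℤ) ∣ β) →
  Real.exp ((L : ℝ) / 2) ≤ |(β : ℝ)|

def Nonv2S : Prop := ∀ M D B C g : ℕ, 0 < D → (∀ e, 1 ≤ e → e ≤ M → e ∣ D) → ∃ C' L1 : ℕ,
  ∀ (K L : ℕ) (n : Fin (M + 1) → ℕ) (T : Fin (M + 1) → ℕ → ℕ → ℤ) (lam : Fin (M + 1) → ℤ),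
    2 ≤ K → (∀ j, D * (n j + 1) ≤ K) → L1 ≤ L → (C' : ℝ) * Real.log K ≤ L →
    (∀ j, 2 * L ≤ n j ∧ n j ≤ g * L) →
    (∀ i j, i ≠ j → ∀ c d : ℕ, 1 ≤ c → c ≤ D → 1 ≤ d → d ≤ D →
      c * n i + L ≤ d * n j ∨ d * n j + L ≤ c * n i) →
    (∀ j e u, |T j e u| ≤ B) →
    (∀ j, ∃ e u, 1 ≤ e ∧ e ≤ M ∧ 1 ≤ u ∧ u < D / e ∧ T j e u ≠ 0) →
    lam ≠ 0 → (∀ j, |lam j| ≤ (K : ℤ) ^ C) →
    ∑ j, (lam j : ℚ) * yf ℚ M D (n j) (T j) ≠ 0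

def SelS : Prop := ∀ (m D L : ℕ) (G : Finset ℕ), 2 * L + m * (D ^ 2 * (2 * L)) < G.card →
  ∃ n : Fin (m + 1) → ℕ, (∀ j, n j ∈ G ∧ 2 * L ≤ n j) ∧
    ∀ i j, i ≠ j → ∀ c d : ℕ, 1 ≤ c → c ≤ D → 1 ≤ d → d ≤ D →
      c * n i + L ≤ d * n j ∨ d * n j + L ≤ c * n i

def Avg2S : Prop := ∀ (h H D K τ : ℕ) (A : Finset ℕ), 0 < h → 0 < H → 0 < D →
  (∀ e, 1 ≤ e → e ≤ h * H + H → e ∣ D) → A ⊆ range K →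
  (H : ℝ) * (A.card - (K : ℝ) / h) ≤ ((K * (h * H) / D + 1 : ℕ) : ℝ) * τ +
    (((range (K * (h * H) / D + 1)).filter
      (fun n => τ < (shp (h * H) H D n A).card)).card : ℝ) * ((D : ℝ) / h)

def Cert2S : Prop := ∀ ε : ℝ, 0 < ε → ∃ K0 : ℕ, ∀ K : ℕ, K0 ≤ K → ∃ K' : ℕ, K ≤ K' ∧
  ∀ A : Finset ℕ, A ⊆ range K → ε * K < A.card → ∃ z : ℤ, z ≠ 0 ∧
    ∀ (F : Type) [Field F] (φ q : ℕ → F) (W r : F), (∀ i : ℕ, 0 < i → i ≤ K' → (i : F) ≠ 0) →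
      (∀ a b : ℕ, 0 < a → 0 < b → a * b ≤ K' → q (a * b) = q a + q b) →
      (∀ k : ℕ, k + 1 ≤ K' →
        ((k + 1 : ℕ) : F) * (φ (k + 1) - φ k) = W + hz F (k + 1) - q (k + 1)) →
      (∀ k ∈ A, φ k = r) → (z : F) = 0

end Pool.Agent.MP_0c16b3_nt.N
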