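import Pool.Agent.MP_0c16b3_nt.N.Spec

/-! Rows TK and BIG: the variance of the number of prime divisors from a finite set. -/

namespace Pool.Agent.MP_0c16b3_nt.N

open Finset Pool.Agent.MP_0c16b3_nt.L

namespace Tk

theorem cnt (a l d : ℕ) (hd : 0 < d) (h : d ∣ l) :
    ∑ t ∈ Ico a (a + l), (if d ∣ t then (1 : ℝ) else 0) = l * (d : ℝ)⁻¹ := by
  have per : Function.Periodic (fun t => d ∣ t) l := fun t => propext (Nat.dvd_add_left h)
  have e : Ico 1 (1 + l) = Ioc 0 l := by ext t; simp only [mem_Ico, mem_Ioc]; omega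
  rw [sum_boole, Nat.filter_Ico_card_eq_of_periodic a l _ per,
    ← Nat.filter_Ico_card_eq_of_periodic 1 l _ per, e, Nat.Ioc_filter_dvd_card_eq_div,
    Nat.cast_div h (by exact_mod_cast hd.ne'), div_eq_mul_inv]

theorem pair (a l q r : ℕ) (hq : q.Prime) (hr : r.Prime) (h1 : q ∣ l) (h2 : r ∣ l) :
    ∑ t ∈ Ico a (a + l), ((if q ∣ t then (1 : ℝ) else 0) - (q : ℝ)⁻¹) *
      ((if r ∣ t then (1 : ℝ) else 0) - (r : ℝ)⁻¹) ≤ if q = r then l * (q : ℝ)⁻¹ else 0 := by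
  have e : ∀ t, ((if q ∣ t then (1 : ℝ) else 0) - (q : ℝ)⁻¹) *
      ((if r ∣ t then (1 : ℝ) else 0) - (r : ℝ)⁻¹) =
      (if q ∣ t ∧ r ∣ t then (1 : ℝ) else 0) - (r : ℝ)⁻¹ * (if q ∣ t then (1 : ℝ) else 0) -
        (q : ℝ)⁻¹ * (if r ∣ t then (1 : ℝ) else 0) + (q : ℝ)⁻¹ * (r : ℝ)⁻¹ := fun t => by
    by_cases a1 : q ∣ t <;> by_cases a2 : r ∣ t <;> simp [a1, a2] <;> ring
  simp only [e]
  rw [sum_add_distrib, sum_sub_distrib, sum_sub_distrib, ← mul_sum, ← mul_sum,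
    cnt a l q hq.pos h1, cnt a l r hr.pos h2, sum_const, Nat.card_Ico, Nat.add_sub_cancel_left,
    nsmul_eq_mul]
  split_ifs with k
  · subst k
    simp only [and_self]
    rw [cnt a l q hq.pos h1]
    have : 0 ≤ (l : ℝ) * ((q : ℝ)⁻¹ * (q : ℝ)⁻¹) := by positivity
    linarith
  · have c : q.Coprime r := (Nat.coprime_primes hq hr).2 k
    have e2 : ∀ t, (q ∣ t ∧ r ∣ t) ↔ q * r ∣ t := fun t =>
      ⟨fun h => c.mul_dvd_of_dvd_of_dvd h.1 h.2,
        fun h => ⟨dvd_of_mul_right_dvd h, dvd_of_mul_left_dvd h⟩⟩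
    simp only [e2]
    rw [cnt a l _ (Nat.mul_pos hq.pos hr.pos) (c.mul_dvd_of_dvd_of_dvd h1 h2), Nat.cast_mul,
      mul_inv]
    exact le_of_eq (by ring)

end Tk

theorem tk : TkS := by
  intro P a l μ hP hl hμ h0
  have dv : ∀ q ∈ P, q ∣ l := fun q hq => (dvd_prod_of_mem _ hq).trans hl
  have e : ∀ t, (om P t : ℝ) - μ = ∑ q ∈ P, ((if q ∣ t then (1 : ℝ) else 0) - (q : ℝ)⁻¹) :=
    fun t => by rw [sum_sub_distrib, sum_boole, hμ, om]
  have var : ∑ t ∈ Ico a (a + l), ((om P t : ℝ) - μ) ^ 2 ≤ l * μ := by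
    simp only [e, sq, sum_mul_sum]
    rw [sum_comm, hμ, mul_sum]
    refine sum_le_sum fun q hq => ?_
    rw [sum_comm]
    refine (sum_le_sum fun r hr => Tk.pair a l q r (hP q hq) (hP r hr) (dv q hq) (dv r hr)).trans ?_
    rw [sum_ite_eq, if_pos hq]
  have ch : (((Ico a (a + l)).filter (fun t => μ / 4 ≤ |(om P t : ℝ) - μ|)).card : ℝ) *
      (μ / 4) ^ 2 ≤ l * μ := by
    rw [← nsmul_eq_mul, ← sum_const]
    refine le_trans (sum_le_sum fun t ht => ?_)
      ((sum_le_sum_of_subset_of_nonneg (filter_subset _ _) fun t _ _ => sq_nonneg _).trans var)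
    rw [← sq_abs ((om P t : ℝ) - μ)]
    exact pow_le_pow_left₀ (by positivity) (mem_filter.1 ht).2 2
  rw [← le_div_iff₀ (by positivity)] at ch
  exact ch.trans (le_of_eq (by field_simp; ring))

theorem big : BigS := by
  intro Y a hY
  have hnn : ∀ n : ℕ, 0 ≤ Set.indicator {p : ℕ | p.Prime} (fun n : ℕ => (1 : ℝ) / n) n :=
    fun n => Set.indicator_nonneg (fun _ _ => by positivity) n
  have h := (not_summable_iff_tendsto_nat_atTop_of_nonneg hnn).1 not_summable_one_div_on_primes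
  obtain ⟨y, hy⟩ := (h.eventually_ge_atTop (a + ∑ i ∈ range (2 * Y + 1),
    Set.indicator {p : ℕ | p.Prime} (fun n : ℕ => (1 : ℝ) / n) i)).exists
  refine ⟨(Ioo (2 * Y) y).filter Nat.Prime, fun q hq => (mem_filter.1 hq).2, ?_, ?_⟩
  · have s : range y ⊆ Ioo (2 * Y) y ∪ range (2 * Y + 1) := fun t ht => by
      simp only [mem_union, mem_Ioo, mem_range] at ht ⊢
      omega
    have d : Disjoint (Ioo (2 * Y) y) (range (2 * Y + 1)) := disjoint_left.2 fun t a b => by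
      simp only [mem_Ioo, mem_range] at a b
      omega
    have h2 := hy.trans (sum_le_sum_of_subset_of_nonneg s fun i _ _ => hnn i)
    rw [sum_union d, add_le_add_iff_right] at h2
    rw [sum_filter]
    refine h2.trans (le_of_eq (sum_congr rfl fun i _ => ?_))
    simp [Set.indicator_apply]
  · refine (sum_le_sum_of_subset_of_nonneg (filter_subset _ _) fun i _ _ => by positivity).trans
      ((sum_Ioo_inv_sq_le (α := ℝ) _ _).trans ?_)
    have : (0 : ℝ) < Y := by exact_mod_cast hY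
    rw [div_le_iff₀ (by positivity), inv_mul_eq_div, le_div_iff₀ this]
    push_cast
    linarith

end Pool.Agent.MP_0c16b3_nt.N
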